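import Pool.Agent.Helper60.SB.Defs3

/-!
Module U18c: entropy of the level sets in the case `p = 1`.
-/

open Finset MeasureTheory Pool.Agent.Helper60.SB
open scoped ENNReal Real

namespace Pool.Agent.Helper98.SB

theorem cov_mono {V : Type*} {S S' : Set V} {R R' : V → V → Prop} {K K' : ℝ} (h : Cov S R K)
    (hS : S' ⊆ S) (hR : ∀ a y, R a y → R' a y) (hK : K ≤ K') : Cov S' R' K' := by
  obtain ⟨t, ht, h⟩ := h
  refine ⟨t, ht.trans (Real.exp_le_exp.mpr hK), fun a ha => ?_⟩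
  obtain ⟨y, hy, hr⟩ := h a (hS ha)
  exact ⟨y, hy, hR _ _ hr⟩

/-- composition of a Euclidean covering with a covering of the unit ball -/
theorem cov_comp {ι : Type} [Fintype ι] (q : Seminorm ℝ (ι → ℝ)) {S : Set (ι → ℝ)}
    {ρ E K1 K2 : ℝ} (hρ : 0 < ρ) (h1 : Cov S (eucl ρ) K1)
    (h2 : Cov {y : ι → ℝ | ∑ i, y i ^ 2 ≤ 1} (fun a y => q (a - y) ≤ E) K2) :
    Cov S (fun a y => q (a - y) ≤ ρ * E) (K1 + K2) := by
  classical
  obtain ⟨t1, ht1, h1⟩ := h1
  obtain ⟨t2, ht2, h2⟩ := h2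
  refine ⟨(t1 ×ˢ t2).image (fun z => z.1 + ρ • z.2), ?_, ?_⟩
  · rw [Real.exp_add]
    calc (((t1 ×ˢ t2).image (fun z => z.1 + ρ • z.2)).card : ℝ) ≤ ((t1 ×ˢ t2).card : ℝ) := by
          exact_mod_cast Finset.card_image_le
      _ = t1.card * t2.card := by rw [Finset.card_product]; push_cast; ring
      _ ≤ _ := mul_le_mul ht1 ht2 (Nat.cast_nonneg _) (Real.exp_pos _).le
  · intro a ha
    obtain ⟨z, hz, hza⟩ := h1 a ha
    obtain ⟨y, hy, hyb⟩ := h2 (ρ⁻¹ • (a - z)) (by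
      change ∑ i, (ρ⁻¹ • (a - z)) i ^ 2 ≤ 1
      have e : ∑ i, (ρ⁻¹ • (a - z)) i ^ 2 = (ρ⁻¹) ^ 2 * ∑ i, (a i - z i) ^ 2 := by
        rw [Finset.mul_sum]
        apply Finset.sum_congr rfl
        intro i _
        simp only [Pi.smul_apply, Pi.sub_apply, smul_eq_mul]
        ring
      rw [e]
      have h3 : ∑ i, (a i - z i) ^ 2 ≤ ρ ^ 2 := hza
      calc (ρ⁻¹) ^ 2 * ∑ i, (a i - z i) ^ 2 ≤ (ρ⁻¹) ^ 2 * ρ ^ 2 :=
            mul_le_mul_of_nonneg_left h3 (by positivity)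
        _ = 1 := by field_simp)
    refine ⟨z + ρ • y, ?_, ?_⟩
    · rw [Finset.mem_image]
      exact ⟨(z, y), Finset.mem_product.mpr ⟨hz, hy⟩, rfl⟩
    · have e : a - (z + ρ • y) = ρ • (ρ⁻¹ • (a - z) - y) := by
        rw [smul_sub, smul_smul, mul_inv_cancel₀ hρ.ne', one_smul]
        abel
      change q (a - (z + ρ • y)) ≤ ρ * E
      rw [e, map_smul_eq_mul, Real.norm_of_nonneg hρ.le]
      exact mul_le_mul_of_nonneg_left hyb hρ.le

/-- coverings of the blocks give a covering of the whole -/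
theorem cov_blocks {κ B : Type} [Fintype κ] [Fintype B] (bl : κ → B)
    (S : Set (κ → ℝ)) (Sb : B → Set (κ → ℝ))
    (hS : ∀ y ∈ S, ∀ β, ∃ z ∈ Sb β, ∀ i, bl i = β → z i = y i) {ε K : ℝ}
    (h : ∀ β, Cov (Sb β) (eucl ε) K) :
    Cov S (eucl (Real.sqrt (Fintype.card B) * ε)) (Fintype.card B * K) := by
  classical
  choose t ht hc using h
  refine ⟨(Fintype.piFinset t).image (fun f i => f (bl i) i), ?_, ?_⟩
  · calc (((Fintype.piFinset t).image (fun f i => f (bl i) i)).card : ℝ)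
        ≤ ((Fintype.piFinset t).card : ℝ) := by exact_mod_cast Finset.card_image_le
      _ = ∏ β, ((t β).card : ℝ) := by rw [Fintype.card_piFinset]; push_cast; rfl
      _ ≤ ∏ _β : B, Real.exp K :=
          Finset.prod_le_prod (fun _ _ => Nat.cast_nonneg _) (fun β _ => ht β)
      _ = Real.exp (Fintype.card B * K) := by
          rw [Finset.prod_const, Finset.card_univ, ← Real.exp_nat_mul]
  · intro y hy
    have h1 : ∀ β, ∃ f ∈ t β, ∃ z : κ → ℝ, eucl ε z f ∧ ∀ i, bl i = β → z i = y i := by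
      intro β
      obtain ⟨z, hz, hzy⟩ := hS y hy β
      obtain ⟨f, hf, hfz⟩ := hc β z hz
      exact ⟨f, hf, z, hfz, hzy⟩
    choose f hf z hz hzy using h1
    refine ⟨fun i => f (bl i) i, ?_, ?_⟩
    · rw [Finset.mem_image]
      exact ⟨f, Fintype.mem_piFinset.mpr hf, rfl⟩
    · change ∑ i, (y i - f (bl i) i) ^ 2 ≤ (Real.sqrt (Fintype.card B) * ε) ^ 2
      rw [mul_pow, Real.sq_sqrt (Nat.cast_nonneg _)]
      calc ∑ i, (y i - f (bl i) i) ^ 2
          = ∑ β, ∑ i ∈ Finset.univ.filter (fun i => bl i = β), (y i - f (bl i) i) ^ 2 :=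
            (Finset.sum_fiberwise _ _ _).symm
        _ ≤ ∑ _β : B, ε ^ 2 := by
            apply Finset.sum_le_sum
            intro β _
            calc ∑ i ∈ Finset.univ.filter (fun i => bl i = β), (y i - f (bl i) i) ^ 2
                = ∑ i ∈ Finset.univ.filter (fun i => bl i = β), (z β i - f β i) ^ 2 := by
                  apply Finset.sum_congr rfl
                  intro i hi
                  have hi' := (Finset.mem_filter.mp hi).2
                  rw [hzy β i hi', hi']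
              _ ≤ ∑ i, (z β i - f β i) ^ 2 :=
                  Finset.sum_le_sum_of_subset_of_nonneg (Finset.filter_subset _ _)
                    (fun _ _ _ => sq_nonneg _)
              _ ≤ ε ^ 2 := hz β
        _ = Fintype.card B * ε ^ 2 := by
            rw [Finset.sum_const, Finset.card_univ, nsmul_eq_mul]

/-- real coordinates of a complex vector -/
noncomputable def rv {κ : Type} (z : κ → ℂ) (i : κ × Bool) : ℝ :=
  if i.2 then (z i.1).im else (z i.1).re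

theorem sum_rv {κ : Type} [Fintype κ] (z : κ → ℂ) : ∑ i, rv z i ^ 2 = ∑ k, ‖z k‖ ^ 2 := by
  rw [Fintype.sum_prod_type]
  apply Finset.sum_congr rfl
  intro k _
  rw [Fintype.sum_bool, Complex.sq_norm, Complex.normSq_apply]
  simp [rv]
  ring

theorem rv_cco {d : ℕ} {Q : Finset (Fin d → ℤ)} (y : Q × Bool → ℝ) : rv (cco y) = y := by
  funext ⟨k, b⟩
  cases b <;> simp [rv, cco]

theorem rv_sum {κ : Type} {N : ℕ} (w : Fin N → ℂ) (z : Fin N → κ → ℂ) :
    rv (fun k => ∑ i, w i * z i k) = ∑ i, ((w i).re • rv (z i) +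
      (w i).im • rv (fun k => Complex.I * z i k)) := by
  funext ⟨k, b⟩
  rw [Finset.sum_apply]
  cases b
  · simp only [rv, Bool.false_eq_true, if_false, Complex.re_sum, Complex.mul_re, Pi.add_apply,
      Pi.smul_apply, smul_eq_mul, Complex.I_re, Complex.I_im]
    apply Finset.sum_congr rfl
    intro i _
    ring
  · simp only [rv, if_true, Complex.im_sum, Complex.mul_im, Pi.add_apply,
      Pi.smul_apply, smul_eq_mul, Complex.I_re, Complex.I_im]
    apply Finset.sum_congr rfl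
    intro i _
    ring

theorem int_norm_le {d : ℕ} {h : (Fin d → ℝ) → ℂ} (h1 : MemLp h 1 (tor d))
    (h2 : eLpNorm h 1 (tor d) ≤ 1) : ∫ x, ‖h x‖ ∂(tor d) ≤ 1 := by
  rw [integral_norm_eq_lintegral_enorm h1.1, ← eLpNorm_one_eq_lintegral_enorm]
  exact ENNReal.toReal_le_of_le_ofReal zero_le_one (by simpa using h2)

theorem norm_fc_le {d : ℕ} {h : (Fin d → ℝ) → ℂ} (h1 : MemLp h 1 (tor d))
    (h2 : eLpNorm h 1 (tor d) ≤ 1) (k : Fin d → ℤ) : ‖fc h k‖ ≤ 1 := by
  unfold fc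
  refine (norm_integral_le_integral_norm _).trans ?_
  simp only [norm_mul, norm_ex, mul_one]
  exact int_norm_le h1 h2

/-- size of a block -/
theorem card_block {d : ℕ} (Q : Finset (Fin d → ℤ)) (s : Fin d → ℕ) (m : ℕ) (hs : ∑ j, s j ≤ m)
    (h : ∀ k ∈ Q, ∀ j, |k j| ≤ 2 ^ s j) : (Q.card : ℝ) ≤ 3 ^ d * 2 ^ m := by
  classical
  have h1 : Q ⊆ Fintype.piFinset (fun j => Finset.Icc (-(2 ^ s j) : ℤ) (2 ^ s j)) := by
    intro k hk
    rw [Fintype.mem_piFinset]
    intro j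
    rw [Finset.mem_Icc]
    exact abs_le.mp (h k hk j)
  have h2 := Finset.card_le_card h1
  rw [Fintype.card_piFinset] at h2
  have h3 : ∏ j : Fin d, (Finset.Icc (-(2 ^ s j) : ℤ) (2 ^ s j)).card ≤ ∏ j : Fin d, 3 * 2 ^ s j := by
    apply Finset.prod_le_prod' 
    intro j _
    rw [Int.card_Icc]
    have : (0 : ℤ) < 2 ^ s j := by positivity
    have h4 : (1 : ℕ) ≤ 2 ^ s j := Nat.one_le_two_pow
    have e : (2 ^ s j + 1 - -(2 ^ s j) : ℤ) = ((2 * 2 ^ s j + 1 : ℕ) : ℤ) := by push_cast; ring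
    rw [e, Int.toNat_natCast]
    omega
  rw [Finset.prod_mul_distrib, Finset.prod_const, Finset.card_univ, Fintype.card_fin,
    Finset.prod_pow_eq_pow_sum] at h3
  have h5 : 3 ^ d * 2 ^ (∑ j, s j) ≤ 3 ^ d * 2 ^ m :=
    Nat.mul_le_mul_left _ (Nat.pow_le_pow_right (by norm_num) hs)
  exact_mod_cast h2.trans (h3.trans h5)

/-- the set of the blocks -/
def Sb {d : ℕ} (Q : Finset (Fin d → ℤ)) (B : Type) (bl : (Fin d → ℤ) → B)
    (μ : (Fin d → ℤ) → ℂ) (β : B) : Set (Q × Bool → ℝ) :=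
  {y | ∃ h : (Fin d → ℝ) → ℂ, MemLp h 1 (tor d) ∧ eLpNorm h 1 (tor d) ≤ 1 ∧
    ∃ z : Q → ℂ, (∀ k : Q, bl k = β → z k = μ k * fc h k) ∧ (∀ k : Q, bl k ≠ β → z k = 0) ∧
      y = rv z}

/-- Euclidean covering of a block -/
theorem cov_Sb {d : ℕ}
    (discretize : ∀ s : Fin d → ℕ, ∃ (N : ℕ) (t : Fin N → (Fin d → ℝ)),
      (N : ℝ) ≤ 8 ^ d * 2 ^ (∑ j, s j) ∧ ∀ h : (Fin d → ℝ) → ℂ, Integrable h (tor d) →
        ∃ w : Fin N → ℂ, ∑ i, ‖w i‖ ≤ 3 ^ d * ∫ x, ‖h x‖ ∂(tor d) ∧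
          ∀ k : Fin d → ℤ, (∀ j, |k j| ≤ 2 ^ s j) → fc h k = ∑ i, w i * ex (-k) (t i))
    (maurey : ∀ (ι : Type) [Fintype ι] (N : ℕ) (v : Fin N → ι → ℝ) (R : ℝ), 0 ≤ R →
      (∀ i, ∑ a, v i a ^ 2 ≤ R ^ 2) → ∀ n : ℕ, 0 < n →
      Cov {y : ι → ℝ | ∃ w : Fin N → ℝ, ∑ i, |w i| ≤ 1 ∧ y = ∑ i, w i • v i}
        (eucl (R / Real.sqrt n)) (n * (1 + Real.log (1 + (2 * N + 1) / n))))
    (m : ℕ) (Q : Finset (Fin d → ℤ)) (B : Type)
    (bl : (Fin d → ℤ) → B) (s : B → Fin d → ℕ) (μ : (Fin d → ℤ) → ℂ)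
    (hs : ∀ β, ∑ j, s β j ≤ m) (hQ : ∀ k ∈ Q, ∀ j, |k j| ≤ 2 ^ s (bl k) j) (hμ : ∀ k, ‖μ k‖ ≤ 1)
    (i : ℕ) (hi : i ≤ m) (β : B) :
    Cov (Sb Q B bl μ β) (eucl (2 * 3 ^ d * Real.sqrt (3 ^ d) * Real.sqrt (2 ^ i)))
      ((1 + Real.log (6 * 8 ^ d)) * (1 + i) * 2 ^ (m - i)) := by
  classical
  obtain ⟨N, t, hN, hw⟩ := discretize (s β)
  set A1 : ℝ := 2 * 3 ^ d with hA1
  have hA1pos : 0 < A1 := by positivity
  let z : Fin N → Q → ℂ := fun i k => if bl k = β then μ k * ex (-(k : Fin d → ℤ)) (t i) else 0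
  let z' : Fin N → Q → ℂ := fun i k => Complex.I * z i k
  let V : Fin (N + N) → (Q × Bool → ℝ) :=
    Fin.append (fun i => A1 • rv (z i)) (fun i => A1 • rv (z' i))
  set R : ℝ := A1 * Real.sqrt (3 ^ d * 2 ^ m) with hR
  have hR0 : 0 ≤ R := by positivity
  have hR2 : R ^ 2 = A1 ^ 2 * (3 ^ d * 2 ^ m) := by
    rw [hR, mul_pow, Real.sq_sqrt (by positivity)]
  have hcard : ((Q.filter (fun k => bl k = β)).card : ℝ) ≤ 3 ^ d * 2 ^ m := by
    apply card_block _ (s β) m (hs β)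
    intro k hk j
    rw [Finset.mem_filter] at hk
    have := hQ k hk.1 j
    rwa [hk.2] at this
  have hz : ∀ (u : ℂ) (_ : ‖u‖ ≤ 1) (i : Fin N), ∑ k, ‖u * z i k‖ ^ 2 ≤ 3 ^ d * 2 ^ m := by
    intro u hu i
    refine le_trans ?_ hcard
    have h1 : ∀ k : Q, ‖u * z i k‖ ^ 2 ≤ if bl k = β then 1 else 0 := by
      intro k
      by_cases hk : bl k = β
      · rw [if_pos hk]
        simp only [z, if_pos hk, norm_mul, norm_ex, mul_one]
        have h2 : ‖u‖ * ‖μ k‖ ≤ 1 := mul_le_one₀ hu (norm_nonneg _) (hμ k)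
        exact pow_le_one₀ (by positivity) h2
      · rw [if_neg hk]
        simp [z, if_neg hk]
    refine (Finset.sum_le_sum (fun k _ => h1 k)).trans (le_of_eq ?_)
    rw [Finset.sum_coe_sort Q (fun k => if bl k = β then (1 : ℝ) else 0), Finset.sum_boole]
  have hV : ∀ i, ∑ a, V i a ^ 2 ≤ R ^ 2 := by
    intro i
    have hsc : ∀ w : Q → ℂ, (∑ k, ‖w k‖ ^ 2 ≤ 3 ^ d * 2 ^ m) →
        ∑ a, (A1 • rv w) a ^ 2 ≤ R ^ 2 := by
      intro w hw
      rw [hR2]
      have e : ∑ a, (A1 • rv w) a ^ 2 = A1 ^ 2 * ∑ a, rv w a ^ 2 := by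
        rw [Finset.mul_sum]
        apply Finset.sum_congr rfl
        intro a _
        simp only [Pi.smul_apply, smul_eq_mul]
        ring
      rw [e, sum_rv]
      exact mul_le_mul_of_nonneg_left hw (by positivity)
    refine Fin.addCases (fun i => ?_) (fun i => ?_) i
    · simp only [V, Fin.append_left]
      apply hsc
      have := hz 1 (by simp) i
      simpa using this
    · simp only [V, Fin.append_right]
      apply hsc
      exact hz Complex.I (by simp) i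
  have hM := maurey (Q × Bool) (N + N) V R hR0 hV (2 ^ (m - i)) (by positivity)
  refine cov_mono hM ?_ ?_ ?_
  · rintro y ⟨h, h1, h2, zz, hz1, hz2, rfl⟩
    obtain ⟨w, hw1, hw2⟩ := hw h (memLp_one_iff_integrable.mp h1)
    have hw3 : ∑ i, ‖w i‖ ≤ 3 ^ d := by
      refine hw1.trans ?_
      calc (3 : ℝ) ^ d * ∫ x, ‖h x‖ ∂(tor d) ≤ 3 ^ d * 1 :=
            mul_le_mul_of_nonneg_left (int_norm_le h1 h2) (by positivity)
        _ = 3 ^ d := mul_one _
    have hzz : zz = fun k => ∑ i, w i * z i k := by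
      funext k
      by_cases hk : bl k = β
      · rw [hz1 k hk, hw2 k (fun j => by
          have := hQ k k.2 j
          rwa [hk] at this), Finset.mul_sum]
        apply Finset.sum_congr rfl
        intro i _
        simp only [z, if_pos hk]
        ring
      · rw [hz2 k hk]
        symm
        apply Finset.sum_eq_zero
        intro i _
        simp only [z, if_neg hk, mul_zero]
    refine ⟨Fin.append (fun i => (w i).re / A1) (fun i => (w i).im / A1), ?_, ?_⟩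
    · rw [Fin.sum_univ_add]
      simp only [Fin.append_left, Fin.append_right, abs_div, abs_of_pos hA1pos]
      rw [← Finset.sum_div, ← Finset.sum_div, ← add_div, div_le_one hA1pos, hA1]
      have e1 : ∑ i, |(w i).re| ≤ 3 ^ d :=
        (Finset.sum_le_sum (fun i _ => Complex.abs_re_le_norm (w i))).trans hw3
      have e2 : ∑ i, |(w i).im| ≤ 3 ^ d :=
        (Finset.sum_le_sum (fun i _ => Complex.abs_im_le_norm (w i))).trans hw3
      linarith
    · rw [hzz, rv_sum, Fin.sum_univ_add, Finset.sum_add_distrib]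
      simp only [V, Fin.append_left, Fin.append_right, smul_smul]
      congr 1
      · apply Finset.sum_congr rfl
        intro i _
        rw [div_mul_cancel₀ _ hA1pos.ne']
      · apply Finset.sum_congr rfl
        intro i _
        rw [div_mul_cancel₀ _ hA1pos.ne']
  · intro a y hay
    have e : R / Real.sqrt ((2 ^ (m - i) : ℕ) : ℝ) =
        2 * 3 ^ d * Real.sqrt (3 ^ d) * Real.sqrt (2 ^ i) := by
      have h1 : (2 : ℝ) ^ m = 2 ^ i * 2 ^ (m - i) := by
        rw [← pow_add]; congr 1; omega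
      have h2 : Real.sqrt (2 ^ (m - i)) ≠ 0 := by positivity
      push_cast
      rw [hR, h1, Real.sqrt_mul (by positivity), Real.sqrt_mul (by positivity), hA1]
      field_simp
    rw [← e]
    exact hay
  · have h8 : (1 : ℝ) ≤ 8 ^ d := one_le_pow₀ (by norm_num)
    have hN' : (N : ℝ) ≤ 8 ^ d * 2 ^ m := by
      refine hN.trans ?_
      apply mul_le_mul_of_nonneg_left _ (by positivity)
      exact pow_le_pow_right₀ (by norm_num) (hs β)
    have h1 : (2 : ℝ) ^ m = 2 ^ i * 2 ^ (m - i) := by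
      rw [← pow_add]; congr 1; omega
    have hn : (0 : ℝ) < 2 ^ (m - i) := by positivity
    have h2i : (1 : ℝ) ≤ 2 ^ i := one_le_pow₀ (by norm_num)
    have h2mi : (1 : ℝ) ≤ 2 ^ (m - i) := one_le_pow₀ (by norm_num)
    push_cast
    have h3 : 1 + (2 * ((N : ℝ) + N) + 1) / 2 ^ (m - i) ≤ 6 * 8 ^ d * 2 ^ i := by
      rw [h1] at hN'
      have h4 : (2 * ((N : ℝ) + N) + 1) / 2 ^ (m - i) ≤ 5 * 8 ^ d * 2 ^ i := by
        rw [div_le_iff₀ hn]
        have h5 : (1 : ℝ) ≤ 8 ^ d * 2 ^ i * 2 ^ (m - i) :=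
          one_le_mul_of_one_le_of_one_le (one_le_mul_of_one_le_of_one_le h8 h2i) h2mi
        nlinarith
      have h6 : (1 : ℝ) ≤ 8 ^ d * 2 ^ i := one_le_mul_of_one_le_of_one_le h8 h2i
      nlinarith
    have h4 : Real.log (1 + (2 * ((N : ℝ) + N) + 1) / 2 ^ (m - i)) ≤
        Real.log (6 * 8 ^ d) + i := by
      refine (Real.log_le_log (by positivity) h3).trans ?_
      rw [Real.log_mul (by positivity) (by positivity), Real.log_pow]
      have : (i : ℝ) * Real.log 2 ≤ i * 1 := by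
        apply mul_le_mul_of_nonneg_left _ (Nat.cast_nonneg _)
        have := Real.log_two_lt_d9
        linarith
      linarith
    have hlog : 0 ≤ Real.log (6 * 8 ^ d) := Real.log_nonneg (by nlinarith)
    have hi0 : (0 : ℝ) ≤ i := Nat.cast_nonneg _
    have h5 : 1 + Real.log (1 + (2 * ((N : ℝ) + N) + 1) / 2 ^ (m - i)) ≤
        (1 + Real.log (6 * 8 ^ d)) * (1 + i) := by nlinarith
    calc (2 : ℝ) ^ (m - i) * (1 + Real.log (1 + (2 * ((N : ℝ) + N) + 1) / 2 ^ (m - i)))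
        ≤ 2 ^ (m - i) * ((1 + Real.log (6 * 8 ^ d)) * (1 + i)) :=
          mul_le_mul_of_nonneg_left h5 hn.le
      _ = _ := by ring

theorem level_entropy_one (d : ℕ)
    (l2linf : ∃ C : ℝ, 1 ≤ C ∧ ∀ (m : ℕ) (Q : Finset (Fin d → ℤ)),
      (∀ k ∈ Q, ∀ j, |k j| ≤ 2 ^ m) → ∀ j : ℕ,
      Cov {y : Q × Bool → ℝ | ∑ i, y i ^ 2 ≤ 1}
        (fun a y => supn Q (a - y) ≤ C * Real.sqrt (m + 1) * (2 : ℝ) ^ (-(j : ℝ)))
        (C * (1 + j) * Q.card + 1) ∧
      Cov {y : Q × Bool → ℝ | ∑ i, y i ^ 2 ≤ 1}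
        (fun a y => supn Q (a - y) ≤ C * Real.sqrt (m + 1) * (2 : ℝ) ^ ((j : ℝ) / 2))
        (Q.card * (2 : ℝ) ^ (-(j : ℝ)) + 1))
    (discretize : ∀ s : Fin d → ℕ, ∃ (N : ℕ) (t : Fin N → (Fin d → ℝ)),
      (N : ℝ) ≤ 8 ^ d * 2 ^ (∑ j, s j) ∧ ∀ h : (Fin d → ℝ) → ℂ, Integrable h (tor d) →
        ∃ w : Fin N → ℂ, ∑ i, ‖w i‖ ≤ 3 ^ d * ∫ x, ‖h x‖ ∂(tor d) ∧
          ∀ k : Fin d → ℤ, (∀ j, |k j| ≤ 2 ^ s j) → fc h k = ∑ i, w i * ex (-k) (t i))
    (maurey : ∀ (ι : Type) [Fintype ι] (N : ℕ) (v : Fin N → ι → ℝ) (R : ℝ), 0 ≤ R →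
      (∀ i, ∑ a, v i a ^ 2 ≤ R ^ 2) → ∀ n : ℕ, 0 < n →
      Cov {y : ι → ℝ | ∃ w : Fin N → ℝ, ∑ i, |w i| ≤ 1 ∧ y = ∑ i, w i • v i}
        (eucl (R / Real.sqrt n)) (n * (1 + Real.log (1 + (2 * N + 1) / n)))) :
    ∃ C : ℝ, 1 ≤ C ∧
    ∀ (m : ℕ) (Q : Finset (Fin d → ℤ)) (B : Type) [Fintype B] [Nonempty B]
      (bl : (Fin d → ℤ) → B) (s : B → Fin d → ℕ) (μ : (Fin d → ℤ) → ℂ),
      (∀ β, ∑ j, s β j ≤ m) → (∀ k ∈ Q, ∀ j, |k j| ≤ 2 ^ s (bl k) j) → (∀ k, ‖μ k‖ ≤ 1) →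
      ∀ j : ℕ,
      Cov (Sset Q B bl μ 1)
        (fun a y => supn Q (a - y) ≤
          C * Real.sqrt (Fintype.card B) * Real.sqrt (m + 1) * (2 : ℝ) ^ (-(j : ℝ)))
        (C * (1 + j) * (Fintype.card B * 2 ^ m) + 1) ∧
      Cov (Sset Q B bl μ 1)
        (fun a y => supn Q (a - y) ≤
          C * Real.sqrt (Fintype.card B) * Real.sqrt (m + 1) * (2 : ℝ) ^ (j : ℝ))
        (C * (1 + j) * (Fintype.card B * 2 ^ m) * (2 : ℝ) ^ (-(j : ℝ)) + 1) := by
  classical
  obtain ⟨C0, hC0, hl⟩ := l2linf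
  set A : ℝ := 2 * 3 ^ d * Real.sqrt (3 ^ d) with hA
  set C2 : ℝ := 1 + Real.log (6 * 8 ^ d) with hC2
  have h3d : (1 : ℝ) ≤ 3 ^ d := one_le_pow₀ (by norm_num)
  have h3s : (1 : ℝ) ≤ Real.sqrt (3 ^ d) := Real.one_le_sqrt.mpr h3d
  have hA1 : 1 ≤ A := by
    rw [hA]
    have : (1 : ℝ) ≤ 3 ^ d * Real.sqrt (3 ^ d) := one_le_mul_of_one_le_of_one_le h3d h3s
    nlinarith
  have hC21 : 1 ≤ C2 := by
    rw [hC2]
    have h8 : (1 : ℝ) ≤ 8 ^ d := one_le_pow₀ (by norm_num)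
    have : 0 ≤ Real.log (6 * 8 ^ d) := Real.log_nonneg (by nlinarith)
    linarith
  set C : ℝ := A * C0 + C2 + C0 * 3 ^ d with hC
  have hAC : A * C0 ≤ C := by rw [hC]; nlinarith
  have hCC : C2 + C0 * 3 ^ d ≤ C := by rw [hC]; nlinarith
  refine ⟨C, by nlinarith, ?_⟩
  intro m Q B _ _ bl s μ hs hQ hμ j
  have hB : (1 : ℝ) ≤ Fintype.card B := by exact_mod_cast Fintype.card_pos
  have hsB : (1 : ℝ) ≤ Real.sqrt (Fintype.card B) := Real.one_le_sqrt.mpr hB
  have hQm : ∀ k ∈ Q, ∀ j, |k j| ≤ 2 ^ m := by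
    intro k hk j
    refine (hQ k hk j).trans ?_
    apply pow_le_pow_right₀ (by norm_num)
    exact (Finset.single_le_sum (fun _ _ => Nat.zero_le _) (Finset.mem_univ j)).trans (hs (bl k))
  have hQc : (Q.card : ℝ) ≤ Fintype.card B * (3 ^ d * 2 ^ m) := by
    have h1 : Q.card = ∑ β : B, (Q.filter (fun k => bl k = β)).card :=
      Finset.card_eq_sum_card_fiberwise (fun _ _ => Finset.mem_coe.mpr (Finset.mem_univ _))
    rw [h1]
    push_cast
    calc ∑ β : B, ((Q.filter (fun k => bl k = β)).card : ℝ) ≤ ∑ _β : B, (3 ^ d * 2 ^ m : ℝ) := by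
          apply Finset.sum_le_sum
          intro β _
          apply card_block _ (s β) m (hs β)
          intro k hk j
          rw [Finset.mem_filter] at hk
          have := hQ k hk.1 j
          rwa [hk.2] at this
      _ = _ := by rw [Finset.sum_const, Finset.card_univ, nsmul_eq_mul]
  -- Euclidean coverings
  have hE : ∀ i ≤ m, Cov (Sset Q B bl μ 1)
      (eucl (Real.sqrt (Fintype.card B) * (A * Real.sqrt (2 ^ i))))
      (Fintype.card B * (C2 * (1 + i) * 2 ^ (m - i))) := by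
    intro i hi
    refine cov_blocks (fun k : Q × Bool => bl k.1) _ (Sb Q B bl μ) ?_
      (fun β => cov_Sb discretize maurey m Q B bl s μ hs hQ hμ i hi β)
    rintro y ⟨h, hh, hy⟩ β
    refine ⟨rv (fun k : Q => if bl k = β then μ k * fc (h β) k else 0), ?_, ?_⟩
    · refine ⟨h β, (hh β).1, (hh β).2, _, fun k hk => if_pos hk, fun k hk => if_neg hk, rfl⟩
    · rintro ⟨k, b⟩ hk
      have hk' : bl k = β := hk
      have h1 : (if bl k = β then μ k * fc (h β) k else 0) = cco y k := by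
        rw [if_pos hk', hy k, hk']
      have h2 : rv (fun k : Q => if bl k = β then μ k * fc (h β) k else 0) (k, b) =
          rv (cco y) (k, b) := by
        cases b <;> simp only [rv, h1]
      rw [h2, rv_cco]
  have hBp : (0 : ℝ) < Real.sqrt (Fintype.card B) := by linarith
  refine ⟨?_, ?_⟩
  · have h1 := hE 0 (Nat.zero_le _)
    have h2 := cov_comp (supn Q) (by
      rw [pow_zero, Real.sqrt_one, mul_one]
      exact mul_pos hBp (by linarith)) h1 (hl m Q hQm j).1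
    refine cov_mono h2 (fun _ h => h) ?_ ?_
    · intro a y hay
      refine hay.trans ?_
      rw [pow_zero, Real.sqrt_one, mul_one]
      have e : Real.sqrt (Fintype.card B) * A *
          (C0 * Real.sqrt (m + 1) * (2 : ℝ) ^ (-(j : ℝ))) = (A * C0) *
          (Real.sqrt (Fintype.card B) * Real.sqrt (m + 1) * (2 : ℝ) ^ (-(j : ℝ))) := by ring
      have e' : C * Real.sqrt (Fintype.card B) * Real.sqrt (m + 1) * (2 : ℝ) ^ (-(j : ℝ)) = C *
          (Real.sqrt (Fintype.card B) * Real.sqrt (m + 1) * (2 : ℝ) ^ (-(j : ℝ))) := by ring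
      rw [e, e']
      exact mul_le_mul_of_nonneg_right hAC (by positivity)
    · have hj : (0 : ℝ) ≤ j := Nat.cast_nonneg _
      have hX : (0 : ℝ) ≤ Fintype.card B * 2 ^ m := by positivity
      have k1 : (Fintype.card B : ℝ) * (C2 * (1 + ((0 : ℕ) : ℝ)) * 2 ^ (m - 0)) =
          C2 * (Fintype.card B * 2 ^ m) := by
        rw [Nat.cast_zero, Nat.sub_zero]; ring
      have k2 : C0 * (1 + j) * Q.card ≤ C0 * (1 + j) * (Fintype.card B * (3 ^ d * 2 ^ m)) :=
        mul_le_mul_of_nonneg_left hQc (by positivity)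
      have k3 : C2 * (Fintype.card B * 2 ^ m) ≤ C2 * (1 + j) * (Fintype.card B * 2 ^ m) := by
        apply mul_le_mul_of_nonneg_right _ hX
        nlinarith
      have k4 : C0 * (1 + j) * (Fintype.card B * (3 ^ d * 2 ^ m)) =
          (C0 * 3 ^ d) * (1 + j) * (Fintype.card B * 2 ^ m) := by ring
      have k5 : (C2 + C0 * 3 ^ d) * (1 + j) * (Fintype.card B * 2 ^ m) ≤
          C * (1 + j) * (Fintype.card B * 2 ^ m) := by
        apply mul_le_mul_of_nonneg_right _ hX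
        exact mul_le_mul_of_nonneg_right hCC (by linarith)
      rw [k1]
      nlinarith
  · have hj : (0 : ℝ) ≤ j := Nat.cast_nonneg _
    have hX : (0 : ℝ) ≤ Fintype.card B * 2 ^ m * (2 : ℝ) ^ (-(j : ℝ)) := by positivity
    have hsq : Real.sqrt (2 ^ j) = (2 : ℝ) ^ ((j : ℝ) / 2) := by
      rw [Real.sqrt_eq_rpow, ← Real.rpow_natCast, ← Real.rpow_mul (by norm_num)]
      congr 1
      ring
    -- a Euclidean covering
    have hE2 : Cov (Sset Q B bl μ 1)
        (eucl (Real.sqrt (Fintype.card B) * (A * Real.sqrt (2 ^ j))))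
        (C2 * (1 + j) * (Fintype.card B * 2 ^ m * (2 : ℝ) ^ (-(j : ℝ)))) := by
      by_cases hjm : j ≤ m
      · refine cov_mono (hE j hjm) (fun _ h => h) (fun _ _ h => h) (le_of_eq ?_)
        have : (2 : ℝ) ^ (m - j) = 2 ^ m * (2 : ℝ) ^ (-(j : ℝ)) := by
          rw [Real.rpow_neg (by norm_num), Real.rpow_natCast, pow_sub₀ _ (by norm_num) hjm]
        rw [this]
        ring
      · push Not at hjm
        refine ⟨{0}, ?_, ?_⟩
        · rw [Finset.card_singleton, Nat.cast_one]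
          apply Real.one_le_exp
          positivity
        · rintro y ⟨h, hh, hy⟩
          refine ⟨0, Finset.mem_singleton_self _, ?_⟩
          change ∑ i, (y i - (0 : Q × Bool → ℝ) i) ^ 2 ≤ _
          have e1 : ∑ i, (y i - (0 : Q × Bool → ℝ) i) ^ 2 = ∑ k, ‖cco y k‖ ^ 2 := by
            rw [← sum_rv, rv_cco]
            apply Finset.sum_congr rfl
            intro i _
            simp
          have e2 : ∑ k, ‖cco y k‖ ^ 2 ≤ Q.card := by
            calc ∑ k, ‖cco y k‖ ^ 2 ≤ ∑ _k : Q, (1 : ℝ) := by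
                  apply Finset.sum_le_sum
                  intro k _
                  rw [hy k, norm_mul]
                  have h2 : ‖μ k‖ * ‖fc (h (bl k)) k‖ ≤ 1 :=
                    mul_le_one₀ (hμ k) (norm_nonneg _) (norm_fc_le (hh _).1 (hh _).2 k)
                  exact pow_le_one₀ (by positivity) h2
              _ = Q.card := by simp
          rw [e1]
          refine e2.trans (hQc.trans ?_)
          rw [mul_pow, mul_pow, Real.sq_sqrt (Nat.cast_nonneg _), Real.sq_sqrt (by positivity)]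
          apply mul_le_mul_of_nonneg_left _ (by positivity)
          have h3 : (3 : ℝ) ^ d ≤ A ^ 2 := by
            rw [hA, mul_pow, Real.sq_sqrt (by positivity)]
            have h4 : (1 : ℝ) ≤ (2 * 3 ^ d) ^ 2 := by nlinarith
            nlinarith
          have h5 : (2 : ℝ) ^ m ≤ 2 ^ j := pow_le_pow_right₀ (by norm_num) hjm.le
          exact mul_le_mul h3 h5 (by positivity) (by positivity)
    have h2 := cov_comp (supn Q) (mul_pos hBp (by positivity)) hE2 (hl m Q hQm j).2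
    refine cov_mono h2 (fun _ h => h) ?_ ?_
    · intro a y hay
      refine hay.trans ?_
      rw [hsq]
      have e0 : (2 : ℝ) ^ ((j : ℝ) / 2) * (2 : ℝ) ^ ((j : ℝ) / 2) = (2 : ℝ) ^ (j : ℝ) := by
        rw [← Real.rpow_add (by norm_num)]
        congr 1
        ring
      have e : Real.sqrt (Fintype.card B) * (A * (2 : ℝ) ^ ((j : ℝ) / 2)) *
          (C0 * Real.sqrt (m + 1) * (2 : ℝ) ^ ((j : ℝ) / 2)) = (A * C0) *
          (Real.sqrt (Fintype.card B) * Real.sqrt (m + 1) * (2 : ℝ) ^ (j : ℝ)) := by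
        rw [← e0]; ring
      have e' : C * Real.sqrt (Fintype.card B) * Real.sqrt (m + 1) * (2 : ℝ) ^ (j : ℝ) = C *
          (Real.sqrt (Fintype.card B) * Real.sqrt (m + 1) * (2 : ℝ) ^ (j : ℝ)) := by ring
      rw [e, e']
      exact mul_le_mul_of_nonneg_right hAC (by positivity)
    · have k2 : (Q.card : ℝ) * (2 : ℝ) ^ (-(j : ℝ)) ≤
          Fintype.card B * (3 ^ d * 2 ^ m) * (2 : ℝ) ^ (-(j : ℝ)) :=
        mul_le_mul_of_nonneg_right hQc (by positivity)
      have k4 : Fintype.card B * (3 ^ d * 2 ^ m) * (2 : ℝ) ^ (-(j : ℝ)) =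
          3 ^ d * (Fintype.card B * 2 ^ m * (2 : ℝ) ^ (-(j : ℝ))) := by ring
      have k6 : (3 : ℝ) ^ d ≤ C0 * 3 ^ d * (1 + j) := by
        have : (1 : ℝ) ≤ C0 * (1 + j) := by nlinarith
        nlinarith
      have k5 : C2 * (1 + j) + 3 ^ d ≤ C * (1 + j) := by
        have : (C2 + C0 * 3 ^ d) * (1 + j) ≤ C * (1 + j) :=
          mul_le_mul_of_nonneg_right hCC (by linarith)
        nlinarith
      have k7 := mul_le_mul_of_nonneg_right k5 hX
      have k8 : C * (1 + j) * (Fintype.card B * 2 ^ m) * (2 : ℝ) ^ (-(j : ℝ)) =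
          C * (1 + j) * (Fintype.card B * 2 ^ m * (2 : ℝ) ^ (-(j : ℝ))) := by ring
      rw [k8]
      nlinarith

end Pool.Agent.Helper98.SB
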