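import Pool.Agent.Helper60.SB.Defs5
import Pool.Agent.Helper1.SB.L9

/-!
# Module P2a of MP_7fc85e_an (stage 3B): weighted square function of the fractional derivatives of
the building block
-/

open Finset MeasureTheory
open scoped ENNReal Real FourierTransform SchwartzMap

namespace Pool.Agent.Helper98.SB

open Pool.Agent.Helper60.SB Pool.Agent.Helper25.SB Pool.Agent.Helper1.SB

theorem ew_mul_le (s : ℕ) (a b : ℝ) : ew s a * ew s b ≤ ew s (a - b) := by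
  unfold ew
  rw [div_mul_div_comm, one_mul]
  have h1 : |Real.sin ((a - b) / 2)| ≤ |Real.sin (a / 2)| + |Real.sin (b / 2)| := by
    rw [sub_div, Real.sin_sub]
    refine (abs_sub _ _).trans ?_
    rw [abs_mul, abs_mul]
    have h2 := Real.abs_cos_le_one (b / 2)
    have h3 := Real.abs_cos_le_one (a / 2)
    have h6 : |Real.sin (a / 2)| * |Real.cos (b / 2)| ≤ |Real.sin (a / 2)| * 1 := by gcongr
    have h7 : |Real.cos (a / 2)| * |Real.sin (b / 2)| ≤ 1 * |Real.sin (b / 2)| := by gcongr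
    linarith
  have hQ : (0 : ℝ) < 2 ^ s := by positivity
  have h4 : 0 ≤ (2 : ℝ) ^ s * |Real.sin (a / 2)| * ((2 : ℝ) ^ s * |Real.sin (b / 2)|) := by
    positivity
  have h5 := mul_le_mul_of_nonneg_left h1 hQ.le
  apply one_div_le_one_div_of_le (by positivity)
  linarith

/-- the distance of the basic character to one -/
theorem p2a_E1 (s c : ℕ) (t : ℝ) :
    ‖E1 (2 ^ s) t c - 1‖ = 2 * |Real.sin ((t - 2 * π * c / 2 ^ s) / 2)| := by
  have e : E1 (2 ^ s) t c = Complex.exp (Complex.I * ((t - 2 * π * c / 2 ^ s : ℝ) : ℂ)) := by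
    rw [E1, ec, ← Complex.exp_add]
    congr 1
    push_cast
    ring
  rw [e, Complex.norm_exp_I_mul_ofReal_sub_one, norm_mul, Real.norm_eq_abs, Real.norm_eq_abs,
    abs_of_pos (by norm_num : (0 : ℝ) < 2)]

theorem p2a_l2 (u : ℝ → ℝ) (hu : ContDiff ℝ (⊤ : ℕ∞) u)
    (hsupp : ∀ t, (t ≤ 1 / 10 ∨ 9 / 10 ≤ t) → u t = 0) (hint : ∫ t, u t = 0) (r a : ℝ)
    (hr : 0 < r) : ∃ C : ℝ, 0 < C ∧ ∀ (s : ℕ) (t : ℝ),
    ∑ c ∈ range (2 ^ s), ‖Phi u r a s c t‖ ^ 2 * (1 + (2 ^ s * ‖E1 (2 ^ s) t c - 1‖) ^ 2) ≤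
      C * (((2 : ℝ) ^ s) ^ r) ^ 2 := by
  obtain ⟨C, hC0, hC⟩ := fourier_decay u hu hsupp r hr
  obtain ⟨C', hC0', hC'⟩ := l9_cf_diff u hu hsupp hint r a hr
  have hS0 := S0_nonneg
  refine ⟨(C ^ 2 + C' ^ 2) * S0 ^ 2 + 1, by positivity, fun s t => ?_⟩
  set Q : ℕ := 2 ^ s with hQdef
  have hQ : 0 < Q := by positivity
  have hQ' : (0 : ℝ) < Q := by exact_mod_cast hQ
  have hQc : ((2 : ℝ) ^ s) = Q := by rw [hQdef]; push_cast; rfl
  rw [hQc]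
  have hQr : 0 < (Q : ℝ) ^ r := Real.rpow_pos_of_pos hQ' r
  have hb : ∀ k : ℤ, ‖cf u r a s k * Complex.exp (Complex.I * k * t)‖ ≤
      C * (Q : ℝ) ^ r / Q / (1 + |(k : ℝ)| / Q) ^ 2 := by
    intro k
    rw [norm_mul, norm_ei, mul_one, ← hQc]
    exact norm_cf_le u hint a hC0 hC s k
  have hb' : ∀ k : ℤ, ‖(cf u r a s (k - 1) - cf u r a s k) *
      Complex.exp (Complex.I * k * t)‖ ≤ C' * (Q : ℝ) ^ r / Q ^ 2 / (1 + |(k : ℝ)| / Q) ^ 2 := by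
    intro k
    rw [norm_mul, norm_ei, mul_one, ← hQc]
    exact hC' s k
  have hsum : Summable fun k => ‖cf u r a s k‖ := by
    refine summable_of_bd (Q := Q) hQ (M := C * (Q : ℝ) ^ r / Q) (by positivity) fun k => ?_
    have := hb k
    rwa [norm_mul, norm_ei, mul_one] at this
  have A1 := square_fun (Q := Q) hQ (M := C * (Q : ℝ) ^ r / Q) (by positivity) hb
  have A2 := square_fun (Q := Q) hQ (M := C' * (Q : ℝ) ^ r / Q ^ 2) (by positivity) hb'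
  have A2' : ∑ c ∈ range Q, (‖E1 Q t c - 1‖ * ‖Phi u r a s c t‖) ^ 2 ≤
      (Q * (C' * (Q : ℝ) ^ r / Q ^ 2 * S0)) ^ 2 := by
    refine le_trans (le_of_eq ?_) A2
    refine Finset.sum_congr rfl fun c _ => ?_
    rw [← norm_mul, l9_Phi_mul u r a s c t hsum]
  have A1' : ∑ c ∈ range Q, ‖Phi u r a s c t‖ ^ 2 ≤
      (Q * (C * (Q : ℝ) ^ r / Q * S0)) ^ 2 := A1
  have h1 : ∀ c, ‖Phi u r a s c t‖ ^ 2 * (1 + (Q * ‖E1 Q t c - 1‖) ^ 2) =
      ‖Phi u r a s c t‖ ^ 2 + (Q : ℝ) ^ 2 * (‖E1 Q t c - 1‖ * ‖Phi u r a s c t‖) ^ 2 := by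
    intro c
    ring
  simp_rw [h1]
  rw [Finset.sum_add_distrib, ← Finset.mul_sum]
  calc _ ≤ (Q * (C * (Q : ℝ) ^ r / Q * S0)) ^ 2 +
        (Q : ℝ) ^ 2 * (Q * (C' * (Q : ℝ) ^ r / Q ^ 2 * S0)) ^ 2 := by
        gcongr
    _ = ((C ^ 2 + C' ^ 2) * S0 ^ 2) * ((Q : ℝ) ^ r) ^ 2 := by
        field_simp
    _ ≤ _ := by
        gcongr
        linarith

theorem p2a_per (u : ℝ → ℝ) (r a : ℝ) (s c : ℕ) (x : ℝ) :
    Phi u r a s c (x + 2 * π) = Phi u r a s c x := by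
  unfold Phi
  refine tsum_congr fun k => ?_
  have e : Complex.I * k * ((x + 2 * π : ℝ) : ℂ) = Complex.I * k * x +
      (k : ℤ) * (2 * π * Complex.I) := by
    push_cast
    ring
  rw [e, Complex.exp_add, Complex.exp_int_mul_two_pi_mul_I, mul_one]

theorem exists_uni_w (u : ℝ → ℝ) (hu : ContDiff ℝ (⊤ : ℕ∞) u)
    (hsupp : ∀ t, (t ≤ 1 / 10 ∨ 9 / 10 ≤ t) → u t = 0) (hint : ∫ t, u t = 0) (r a : ℝ)
    (hr : 0 < r) :
    ∃ (φ : ℕ → ℕ → ℝ → ℝ) (C : ℝ), 0 < C ∧ (∀ s c, Continuous (φ s c)) ∧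
      (∀ s c x, φ s c (x + 2 * π) = φ s c x) ∧
      (∀ s c, c < 2 ^ s → ∀ x, ∫ y, bern r a (x - y) * φ s c y ∂tor1 = ub u s c x) ∧
      (∀ (s : ℕ) (t : ℝ), ∑ c ∈ range (2 ^ s),
        (φ s c t * (1 + 2 ^ s * |Real.sin ((t - 2 * π * c / 2 ^ s) / 2)|)) ^ 2 ≤
          C * (2 : ℝ) ^ (2 * r * s)) := by
  obtain ⟨C, hC, hl2⟩ := p2a_l2 u hu hsupp hint r a hr
  obtain ⟨hcont, hconv⟩ := l9_conv u hu hsupp hint r a hr
  refine ⟨fun s c t => (Phi u r a s c t).re, 2 * C, by positivity,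
    fun s c => Complex.continuous_re.comp (hcont s c), fun s c x => ?_, hconv, fun s t => ?_⟩
  · simp only [p2a_per]
  · have h0 : (2 : ℝ) ^ (2 * r * s) = (((2 : ℝ) ^ s) ^ r) ^ 2 := by
      rw [← Real.rpow_natCast (2 : ℝ) s, ← Real.rpow_mul (by norm_num),
        ← Real.rpow_natCast (((2 : ℝ) ^ (s * r))) 2, ← Real.rpow_mul (by norm_num)]
      congr 1
      push_cast
      ring
    rw [h0]
    have h1 : ∀ c ∈ range (2 ^ s),
        ((Phi u r a s c t).re * (1 + 2 ^ s * |Real.sin ((t - 2 * π * c / 2 ^ s) / 2)|)) ^ 2 ≤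
        2 * (‖Phi u r a s c t‖ ^ 2 * (1 + (2 ^ s * ‖E1 (2 ^ s) t c - 1‖) ^ 2)) := by
      intro c _
      rw [p2a_E1]
      have h2 : (Phi u r a s c t).re ^ 2 ≤ ‖Phi u r a s c t‖ ^ 2 := by
        rw [← sq_abs]
        exact pow_le_pow_left₀ (abs_nonneg _) (Complex.abs_re_le_norm _) 2
      set y : ℝ := 2 ^ s * |Real.sin ((t - 2 * π * c / 2 ^ s) / 2)| with hy
      have hy0 : 0 ≤ y := by positivity
      have h3 : (2 : ℝ) ^ s * (2 * |Real.sin ((t - 2 * π * c / 2 ^ s) / 2)|) = 2 * y := by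
        rw [hy]; ring
      rw [h3, mul_pow]
      have h4 : (1 + y) ^ 2 ≤ 2 * (1 + (2 * y) ^ 2) := by nlinarith [sq_nonneg (1 - y)]
      calc (Phi u r a s c t).re ^ 2 * (1 + y) ^ 2 ≤
          ‖Phi u r a s c t‖ ^ 2 * (2 * (1 + (2 * y) ^ 2)) := by gcongr
        _ = _ := by ring
    refine (Finset.sum_le_sum h1).trans ?_
    rw [← Finset.mul_sum, mul_assoc]
    exact mul_le_mul_of_nonneg_left (hl2 s t) (by norm_num)

end Pool.Agent.Helper98.SB
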